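import Mathlib
import Pool.Agent.H.MP_3a9d0e_gt.A

open Set Topology

namespace Pool.Agent.Results.MP_3a9d0e_gt.NotClosed

theorem result : ∃ G : Subgroup (GL (Fin 3) ℝ),
    (∀ L : Subgroup G, IsClosed (L : Set G) →
      TopologicalSpace.IsTopologicalBasis {U : Set L | IsClopen U} → DiscreteTopology L) ∧
    ¬ IsClosed (G : Set (GL (Fin 3) ℝ)) :=
  ⟨H.MP_3a9d0e_gt.G, H.MP_3a9d0e_gt.discrete, H.MP_3a9d0e_gt.not_closed⟩

end Pool.Agent.Results.MP_3a9d0e_gt.NotClosed
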